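import Pool.Agent.Helper25.GG.Final

/-!
Problem MP_305b31_co (excluded minors of minor-closed classes of gain-graphic matroids).

For every finite group `H`, every minor-closed class `𝓜` of `H`-gain-graphic matroids and every
`c`, only finitely many excluded minors of `𝓜` (up to isomorphism) have no circuit with more
than `c` elements.  Consequently the question has a positive answer for every class that omits
some circuit `U_{n-1,n}`.  The encoding of matroids, gain graphs, minors and isomorphism is that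
of the frozen statement `S07929`.
-/

namespace Pool.Agent.Results.MP_305b31_co.BoundedCircuits

open Pool.Agent.Helper25.GG

/-- Let `H` be a finite group and `𝓜` an isomorphism- and minor-closed class of
`H`-gain-graphic matroids.
(1) For every `c` there is a finite set of matroids that contains, up to isomorphism, every
excluded minor of `𝓜` all of whose circuits have at most `c` elements.
(2) If for some `n ≥ 1` no member of `𝓜` has a circuit with exactly `n` elements, then `𝓜` has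
only finitely many excluded minors up to isomorphism. -/
theorem result : ∀ (H : Type) [Group H] [Finite H] (𝓜 : Set (Matroid ℕ)),
    (∀ M ∈ 𝓜, M.E.Finite ∧ ∃ (n : ℕ) (tl hd : ℕ → Fin n) (γ : ℕ → H),
      ∀ I ⊆ M.E, (M.Indep I ↔ ∀ X ⊆ I, X.Nonempty →
        (X.ncard ≤ (tl '' X ∪ hd '' X).ncard ∧
          ((∃ φ : Fin n → H, ∀ e ∈ X, γ e = (φ (tl e))⁻¹ * φ (hd e)) →
            X.ncard + 1 ≤ (tl '' X ∪ hd '' X).ncard)))) →
    (∀ M ∈ 𝓜, ∀ N : Matroid ℕ, Matroid.IsMinor N M → N ∈ 𝓜) →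
    (∀ M ∈ 𝓜, ∀ N : Matroid ℕ,
      (∃ f : ℕ → ℕ, Set.BijOn f M.E N.E ∧ ∀ I ⊆ M.E, (M.Indep I ↔ N.Indep (f '' I))) →
      N ∈ 𝓜) →
    (∀ c : ℕ, ∃ S : Finset (Matroid ℕ), ∀ N : Matroid ℕ, N.E.Finite → N ∉ 𝓜 →
      (∀ N' : Matroid ℕ, Matroid.IsMinor N' N → N' ≠ N → N' ∈ 𝓜) →
      (∀ C, N.IsCircuit C → C.ncard ≤ c) →
      ∃ M ∈ S, ∃ f : ℕ → ℕ, Set.BijOn f N.E M.E ∧
        ∀ I ⊆ N.E, (N.Indep I ↔ M.Indep (f '' I))) ∧
    ((∃ n : ℕ, 1 ≤ n ∧ ∀ M ∈ 𝓜, ∀ C, M.IsCircuit C → C.ncard ≠ n) →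
      ∃ S : Finset (Matroid ℕ), ∀ N : Matroid ℕ, N.E.Finite → N ∉ 𝓜 →
        (∀ N' : Matroid ℕ, Matroid.IsMinor N' N → N' ≠ N → N' ∈ 𝓜) →
        ∃ M ∈ S, ∃ f : ℕ → ℕ, Set.BijOn f N.E M.E ∧
          ∀ I ⊆ N.E, (N.Indep I ↔ M.Indep (f '' I))) := by
  intro H _ _ 𝓜 hg _ hi
  have hg' : ∀ M ∈ 𝓜, GainGraphic H M := fun M hM => (gainGraphic_iff M).mpr (hg M hM)
  have h1 := fun c => final H 𝓜 hg' hi c
  refine ⟨h1, ?_⟩
  rintro ⟨n, hn, hom⟩
  obtain ⟨S, hS⟩ := h1 n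
  exact ⟨S, fun N hfin hN hmin => hS N hfin hN hmin (circLe_of_omits hn hom hfin hmin)⟩

end Pool.Agent.Results.MP_305b31_co.BoundedCircuits
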